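import Pool.Agent.WL13.Data

/-! The basic sets `B y j` and their combinatorics. -/

namespace Pool.Agent.WL13

open Set PiNat Filter

variable (D : Data)

/-- depth of the piece around the `k`-th approximating point -/
noncomputable def Data.m (y : C) (k : ℕ) : ℕ := firstDiff (D.σ y k) y + 1

/-- `In z y`: the point `z` lies in the canonical compact neighbourhood of `y` -/
inductive Data.In : C → C → Prop
  | refl (y : C) : Data.In y y
  | step {z y : C} {k : ℕ} : D.rank y ≠ 0 → Data.In z (D.σ y k) →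
      z ∈ cylinder (D.σ y k) (D.m y k) → Data.In z y

def Data.B (y : C) (j : ℕ) : Set C := {z | D.In z y ∧ z ∈ cylinder y j}

variable {D}

theorem cyl_trans {x y z : C} {i j : ℕ} (h1 : z ∈ cylinder y i) (h2 : y ∈ cylinder x j)
    (h : j ≤ i) : z ∈ cylinder x j :=
  fun l hl => (h1 l (lt_of_lt_of_le hl h)).trans (h2 l hl)

theorem self_mem_B (y : C) (j : ℕ) : y ∈ D.B y j := ⟨Data.In.refl y, self_mem_cylinder _ _⟩

theorem B_anti (y : C) {i j : ℕ} (h : i ≤ j) : D.B y j ⊆ D.B y i :=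
  fun _ hz => ⟨hz.1, cylinder_anti y h hz.2⟩

theorem In_rank {z y : C} (h : D.In z y) : D.rank z ≤ D.rank y := by
  induction h with
  | refl => exact le_rfl
  | step h0 _ _ ih => exact ih.trans (D.lower _ _ h0).le

theorem In_cases {z y : C} (h : D.In z y) :
    z = y ∨ D.rank y ≠ 0 ∧ ∃ k, z ∈ D.B (D.σ y k) (D.m y k) := by
  cases h with
  | refl => exact Or.inl rfl
  | step h0 h1 h2 => exact Or.inr ⟨h0, _, h1, h2⟩

theorem In_open {z y : C} (h : D.In z y) : ∃ i, ∀ w ∈ D.B z i, D.In w y := by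
  induction h with
  | refl => exact ⟨0, fun w hw => hw.1⟩
  | @step y k h0 _ h2 ih =>
    obtain ⟨i, hi⟩ := ih
    refine ⟨max i (D.m y k), fun w hw => Data.In.step h0
      (hi w (B_anti z (le_max_left _ _) hw)) (cyl_trans hw.2 h2 (le_max_right _ _))⟩

theorem B_open {z y : C} {j : ℕ} (h : z ∈ D.B y j) : ∃ i, D.B z i ⊆ D.B y j := by
  obtain ⟨i, hi⟩ := In_open h.1
  exact ⟨max i j, fun w hw => ⟨hi w (B_anti z (le_max_left _ _) hw),
    cyl_trans hw.2 h.2 (le_max_right _ _)⟩⟩

theorem le_firstDiff {y : C} (h0 : D.rank y ≠ 0) (k : ℕ) : k ≤ firstDiff (D.σ y k) y := by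
  have := D.near y k h0
  rw [mem_cylinder_comm] at this
  exact (mem_cylinder_iff_le_firstDiff (D.ne y k h0) k).1 ((mem_cylinder_comm _ _ _).1 this)

/-- the `k`-th piece lies in the `k`-th cylinder -/
theorem piece_sub {y : C} (h0 : D.rank y ≠ 0) (k : ℕ) :
    D.B (D.σ y k) (D.m y k) ⊆ D.B y k := fun _ hz =>
  ⟨Data.In.step h0 hz.1 hz.2, cyl_trans hz.2 (D.near y k h0)
    ((le_firstDiff h0 k).trans (Nat.le_succ _))⟩

theorem sigma_mem {y : C} (h0 : D.rank y ≠ 0) (k : ℕ) : D.σ y k ∈ D.B y k :=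
  piece_sub h0 k (self_mem_B _ _)

theorem B_closed (y : C) : ∀ (j : ℕ) (z : C), z ∉ D.B y j →
    ∀ᶠ i in atTop, Disjoint (D.B z i) (D.B y j) := by
  induction' hn : D.rank y using Nat.strong_induction_on with n ih generalizing y
  intro j z hz
  by_cases hc : z ∈ cylinder y j
  swap
  · filter_upwards [eventually_ge_atTop j] with i hi
    rw [Set.disjoint_left]
    intro w hw1 hw2
    exact hc (cyl_trans ((mem_cylinder_comm _ _ _).1 hw1.2) hw2.2 hi)
  have hin : ¬ D.In z y := fun h => hz ⟨h, hc⟩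
  have hne : z ≠ y := fun e => hin (e ▸ Data.In.refl z)
  obtain ⟨e, he⟩ := Function.ne_iff.1 hne
  have h1 : ∀ᶠ i in atTop, ∀ k ∈ Finset.range (e + 1), D.rank y ≠ 0 →
      Disjoint (D.B z i) (D.B (D.σ y k) (D.m y k)) := by
    rw [eventually_all_finset]
    intro k _
    by_cases h0 : D.rank y = 0
    · exact Eventually.of_forall fun i h => absurd h0 h
    · have := ih _ (hn ▸ D.lower y k h0) (D.σ y k) rfl (D.m y k) z
        (fun h => hin (piece_sub h0 k h).1)
      exact this.mono fun i hi _ => hi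
  filter_upwards [h1, eventually_ge_atTop (e + 1)] with i hi1 hi2
  rw [Set.disjoint_left]
  intro w hw1 hw2
  have hwe : w e ≠ y e := by rw [hw1.2 e hi2]; exact he
  rcases In_cases hw2.1 with rfl | ⟨h0, k, hk⟩
  · exact hwe rfl
  · have hke : k < e + 1 := by
      by_contra hlt
      exact hwe ((piece_sub h0 k hk).2 e (by omega))
    exact Set.disjoint_left.1 (hi1 k (Finset.mem_range.2 hke) h0) hw1 hk

theorem B_countable (y : C) : ∀ j, (D.B y j).Countable := by
  induction' hn : D.rank y using Nat.strong_induction_on with n ih generalizing y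
  intro j
  by_cases h0 : D.rank y = 0
  · refine (countable_singleton y).mono fun z hz => ?_
    rcases In_cases hz.1 with rfl | ⟨h, -⟩
    · rfl
    · exact absurd h0 h
  · refine ((countable_iUnion fun k => ih _ (hn ▸ D.lower y k h0) (D.σ y k) rfl
      (D.m y k)).insert y).mono fun z hz => ?_
    rcases In_cases hz.1 with rfl | ⟨-, k, hk⟩
    · exact Or.inl rfl
    · exact Or.inr (mem_iUnion.2 ⟨k, hk⟩)

theorem B_rank_zero (y : C) : ∀ j, ∃ z ∈ D.B y j, D.rank z = 0 := by
  induction' hn : D.rank y using Nat.strong_induction_on with n ih generalizing y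
  intro j
  by_cases h0 : D.rank y = 0
  · exact ⟨y, self_mem_B _ _, h0⟩
  · obtain ⟨z, hz, hz0⟩ := ih _ (hn ▸ D.lower y j h0) (D.σ y j) rfl (D.m y j)
    exact ⟨z, piece_sub h0 j hz, hz0⟩

/-- closed sets of bounded rank have countable closure in the Cantor set -/
theorem closure_countable {F : Set C} {n : ℕ} (hr : ∀ z ∈ F, D.rank z ≤ n)
    (hF : ∀ z ∉ F, ∃ i, Disjoint (D.B z i) F) : (closure F).Countable := by
  by_contra hc
  obtain ⟨S, hS, hSc, hFS⟩ :=
    (TopologicalSpace.IsSeparable.of_separableSpace F).exists_countable_dense_subset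
  obtain ⟨r, hr1, hr2⟩ := D.catches S n hSc (fun s hs => hr s (hS hs))
    (fun h => hc (h.mono (closure_minimal hFS isClosed_closure)))
  obtain ⟨i, hi⟩ := hF r (fun h => by have := hr r h; omega)
  exact Set.disjoint_left.1 hi (sigma_mem (by omega) i) (hS (hr2 i))

/-- closed sets of bounded rank lie in clopen sets of bounded rank -/
theorem exists_clopen {F : Set C} {n : ℕ} (hr : ∀ z ∈ F, D.rank z ≤ n)
    (hF : ∀ z ∉ F, ∃ i, Disjoint (D.B z i) F) :
    ∃ N : Set C, F ⊆ N ∧ (∀ z ∈ N, D.rank z ≤ n) ∧ (∀ z ∈ N, ∃ i, D.B z i ⊆ N) ∧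
      ∀ z ∉ N, ∃ i, Disjoint (D.B z i) N := by
  classical
  obtain ⟨e, he⟩ := Set.countable_iff_exists_injOn.1 (closure_countable hr hF)
  choose! g hg using hF
  have hfin : ∀ m, {z | z ∈ closure F ∧ e z ≤ m}.Finite := by
    intro m
    refine Set.Finite.of_finite_image (f := e) ((finite_Iic m).subset ?_)
      (he.mono fun z hz => hz.1)
    rintro _ ⟨z, hz, rfl⟩
    exact hz.2
  have hl : ∀ d ∈ F, ∃ l, e d ≤ l ∧ ∀ z ∈ {z | z ∈ closure F ∧ e z ≤ e d}, z ∉ F →
      Disjoint (D.B d l) (D.B z (g z)) := by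
    intro d hd
    have h1 : ∀ᶠ l in atTop, ∀ z ∈ {z | z ∈ closure F ∧ e z ≤ e d}, z ∉ F →
        Disjoint (D.B d l) (D.B z (g z)) := by
      rw [eventually_all_finite (hfin _)]
      intro z _
      by_cases hz : z ∈ F
      · exact Eventually.of_forall fun i h => absurd hz h
      · exact (B_closed z (g z) d (fun h => Set.disjoint_left.1 (hg z hz) h hd)).mono
          fun i hi _ => hi
    exact ((eventually_ge_atTop (e d)).and h1).exists
  choose! l hl1 hl2 using hl
  refine ⟨⋃ d ∈ F, D.B d (l d), fun d hd => mem_biUnion hd (self_mem_B _ _), ?_, ?_, ?_⟩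
  · intro z hz
    obtain ⟨d, hd, hz⟩ := mem_iUnion₂.1 hz
    exact (In_rank hz.1).trans (hr d hd)
  · intro z hz
    obtain ⟨d, hd, hz⟩ := mem_iUnion₂.1 hz
    obtain ⟨i, hi⟩ := B_open hz
    exact ⟨i, hi.trans (subset_biUnion_of_mem (u := fun d => D.B d (l d)) hd)⟩
  · intro w hw
    have hwF : w ∉ F := fun h => hw (mem_biUnion h (self_mem_B _ _))
    have h1 : ∃ m i, ∀ d ∈ F, m ≤ e d → Disjoint (D.B w i) (D.B d (l d)) := by
      by_cases hc : w ∈ closure F
      · exact ⟨e w, g w, fun d hd hm => (hl2 d hd w ⟨hc, hm⟩ hwF).symm⟩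
      · obtain ⟨m, hm⟩ := exists_disjoint_cylinder isClosed_closure hc
        refine ⟨m, m, fun d hd hmd => ?_⟩
        rw [Set.disjoint_left]
        intro u hu1 hu2
        exact Set.disjoint_left.1 hm (subset_closure hd)
          (cyl_trans ((mem_cylinder_comm _ _ _).1 hu2.2) hu1.2 (hmd.trans (hl1 d hd)))
    obtain ⟨m, i0, hm⟩ := h1
    have h2 : ∀ᶠ i in atTop, ∀ d ∈ {z | z ∈ closure F ∧ e z ≤ m}, d ∈ F →
        Disjoint (D.B w i) (D.B d (l d)) := by
      rw [eventually_all_finite (hfin _)]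
      intro d _
      by_cases hd : d ∈ F
      · exact (B_closed d (l d) w (fun h => hw (mem_biUnion hd h))).mono fun i hi _ => hi
      · exact Eventually.of_forall fun i h => absurd h hd
    obtain ⟨i, hi1, hi2⟩ := ((eventually_ge_atTop i0).and h2).exists
    refine ⟨i, ?_⟩
    rw [disjoint_iUnion₂_right]
    intro d hd
    rcases le_total m (e d) with h | h
    · exact (hm d hd h).mono_left (B_anti w hi1)
    · exact hi2 d ⟨subset_closure hd, h⟩ hd

end Pool.Agent.WL13
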