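import Mathlib

/-! Rank function and approximating sequences on the Cantor set. -/

namespace Pool.Agent.WL13

open Set Cardinal PiNat

theorem inj_choice {ι α : Type} (A : ι → Set α) (h : ∀ i, #ι ≤ #(A i)) :
    ∃ p : ι → α, Function.Injective p ∧ ∀ i, p i ∈ A i := by
  classical
  obtain ⟨lo, wf, ho⟩ := Cardinal.exists_ord_eq_type_lt ι
  have step : ∀ (i : ι) (g : ∀ j, j < i → α), ∃ a ∈ A i, ∀ j (hj : j < i), g j hj ≠ a := by
    intro i g
    by_contra hc
    push Not at hc
    have h1 : A i ⊆ range (fun j : Iio i => g j.1 j.2) := by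
      intro a ha
      obtain ⟨j, hj, e⟩ := hc a ha
      exact ⟨⟨j, hj⟩, e⟩
    have h2 := (mk_le_mk_of_subset h1).trans mk_range_le
    exact absurd ((h i).trans h2) (not_le.2 (mk_Iio_lt i ho))
  choose F hF1 hF2 using step
  let p : ι → α := (wellFounded_lt (α := ι)).fix F
  have hp : ∀ i, p i = F i (fun j _ => p j) := fun i => WellFounded.fix_eq _ _ _
  refine ⟨p, ?_, fun i => by rw [hp i]; exact hF1 _ _⟩
  intro i j e
  rcases lt_trichotomy i j with hij | hij | hij
  · exact absurd (e.trans (hp j)) (hF2 j (fun j _ => p j) i hij)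
  · exact hij
  · exact absurd (e.symm.trans (hp i)) (hF2 i (fun j _ => p j) j hij)

abbrev C : Type := ℕ → Bool

theorem mk_C : #C = continuum := by
  simp [C, Cardinal.two_power_aleph0]

/-- rank function with approximating sequences -/
structure Data where
  rank : C → ℕ
  σ : C → ℕ → C
  lower : ∀ r k, rank r ≠ 0 → rank (σ r k) < rank r
  ne : ∀ r k, rank r ≠ 0 → σ r k ≠ r
  near : ∀ r k, rank r ≠ 0 → σ r k ∈ cylinder r k
  count : {r | rank r = 0}.Countable
  catches : ∀ (S : Set C) (n : ℕ), S.Countable → (∀ s ∈ S, rank s ≤ n) →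
    ¬ (closure S).Countable → ∃ r, rank r = n + 1 ∧ ∀ k, σ r k ∈ S

def q (s : Finset ℕ) : C := fun i => decide (i ∈ s)

theorem exists_q (r : C) (k : ℕ) : ∃ s, q s ∈ cylinder r k := by
  classical
  refine ⟨(Finset.range k).filter (fun i => r i = true), fun i hi => ?_⟩
  simp [q, hi]

theorem exists_data : Nonempty Data := by
  classical
  let T : Type := {τ : (ℕ → C) × ℕ // ¬ (closure (range τ.1)).Countable}
  let A : T → Set C := fun τ => closure (range τ.1.1) \ (range τ.1.1 ∪ range q)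
  have hT : #T ≤ continuum := by
    refine (mk_subtype_le _).trans ?_
    simp
  have hA : ∀ τ, #T ≤ #(A τ) := by
    intro τ
    refine hT.trans ?_
    have : PolishSpace C := PolishSpace.mk
    obtain ⟨f, hf, -, hfi⟩ :=
      (isClosed_closure (s := range τ.1.1)).exists_nat_bool_injection_of_not_countable τ.2
    have h1 : continuum ≤ #(closure (range τ.1.1)) := by
      rw [← mk_C, ← mk_range_eq f hfi]
      exact mk_le_mk_of_subset hf
    have h2 := le_mk_sdiff_add_mk (closure (range τ.1.1)) (range τ.1.1 ∪ range q)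
    have h3 : #(range τ.1.1 ∪ range q : Set C) < continuum :=
      lt_of_le_of_lt (le_aleph0_iff_set_countable.2
        ((countable_range _).union (countable_range _))) aleph0_lt_continuum
    by_contra hlt
    exact absurd (h1.trans h2) (not_le.2 (add_lt_of_lt aleph0_le_continuum (not_le.1 hlt) h3))
  obtain ⟨p, hpi, hp⟩ := inj_choice A hA
  let rank : C → ℕ := fun r =>
    if h : ∃ τ, p τ = r then h.choose.1.2 + 1 else if r ∈ range q then 0 else 1
  have rank_p : ∀ τ, rank (p τ) = τ.1.2 + 1 := by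
    intro τ
    have h : ∃ τ', p τ' = p τ := ⟨τ, rfl⟩
    simp only [rank, dif_pos h]
    rw [hpi h.choose_spec]
  have rank_q : ∀ r, rank r = 0 ↔ r ∈ range q := by
    intro r
    by_cases h : ∃ τ, p τ = r
    · obtain ⟨τ, rfl⟩ := h
      rw [rank_p]
      exact ⟨fun h => by omega, fun h => absurd (Or.inr h) (hp τ).2⟩
    · simp only [rank, dif_neg h]
      split_ifs with h2
      · exact ⟨fun _ => h2, fun _ => rfl⟩
      · exact ⟨fun h => by simp at h, fun h => absurd h h2⟩
  have key : ∀ r k, ∃ z : C, (rank r ≠ 0 → rank z < rank r ∧ z ≠ r ∧ z ∈ cylinder r k) ∧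
      ∀ τ, p τ = r → (∀ i, rank (τ.1.1 i) ≤ τ.1.2) → z ∈ range τ.1.1 := by
    intro r k
    by_cases h : ∃ τ, p τ = r ∧ ∀ i, rank (τ.1.1 i) ≤ τ.1.2
    · obtain ⟨τ, rfl, hτ⟩ := h
      obtain ⟨z, hz1, i, rfl⟩ := mem_closure_iff.1 (hp τ).1 _ (isOpen_cylinder _ (p τ) k)
        (self_mem_cylinder _ _)
      refine ⟨τ.1.1 i, fun _ => ⟨?_, ?_, hz1⟩, ?_⟩
      · rw [rank_p]; exact Nat.lt_succ_of_le (hτ i)
      · intro e
        exact (hp τ).2 (Or.inl ⟨i, e⟩)
      · intro τ' e _
        rw [hpi e]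
        exact ⟨i, rfl⟩
    · obtain ⟨s, hs⟩ := exists_q r k
      refine ⟨q s, fun h0 => ⟨?_, ?_, hs⟩, fun τ e h' => absurd ⟨τ, e, h'⟩ h⟩
      · rw [(rank_q (q s)).2 ⟨s, rfl⟩]; omega
      · intro e
        exact h0 ((rank_q r).2 ⟨s, e⟩)
  choose σ hσ1 hσ2 using key
  refine ⟨⟨rank, σ, fun r k h => (hσ1 r k h).1, fun r k h => (hσ1 r k h).2.1,
    fun r k h => (hσ1 r k h).2.2, ?_, ?_⟩⟩
  · exact (countable_range q).mono (fun r hr => (rank_q r).1 hr)
  · intro S n hS hn hcl
    have hne : S.Nonempty := by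
      rcases S.eq_empty_or_nonempty with rfl | h
      · exact absurd (by simp) hcl
      · exact h
    obtain ⟨s, rfl⟩ := hS.exists_eq_range hne
    refine ⟨p ⟨(s, n), hcl⟩, rank_p _, fun k => hσ2 _ k ⟨(s, n), hcl⟩ rfl fun i => hn _ ⟨i, rfl⟩⟩

end Pool.Agent.WL13
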