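import Pool.Agent.WL13.Data

/-! A maximal almost disjoint family of sequences indexed by the points themselves. -/

namespace Pool.Agent.WL13

open Set Cardinal Filter Topology

structure Mad where
  σ : C → ℕ → C
  inj : ∀ y, Function.Injective (σ y)
  ne : ∀ y k, σ y k ≠ y
  ad : ∀ y z, y ≠ z → (range (σ y) ∩ range (σ z)).Finite
  max : ∀ A : Set C, A.Infinite → ∃ y, (A ∩ range (σ y)).Infinite

theorem exists_mad : Nonempty Mad := by
  classical
  let P : Set (Set (Set C)) := {M | (∀ S ∈ M, S.Countable ∧ S.Infinite) ∧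
    M.Pairwise fun S T => (S ∩ T).Finite}
  obtain ⟨M, hM⟩ : ∃ M, Maximal (· ∈ P) M := by
    refine zorn_subset P fun c hc hch => ⟨⋃₀ c, ⟨?_, ?_⟩, fun s hs => subset_sUnion_of_mem hs⟩
    · rintro S ⟨m, hm, hS⟩
      exact (hc hm).1 S hS
    · rintro S ⟨m, hm, hS⟩ T ⟨m', hm', hT⟩ hne
      rcases hch.total hm hm' with h | h
      · exact (hc hm').2 (h hS) hT hne
      · exact (hc hm).2 hS (h hT) hne
  have hmax : ∀ A : Set C, A.Infinite → ∃ S ∈ M, (A ∩ S).Infinite := by
    intro A hA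
    by_contra h
    push Not at h
    obtain ⟨B, hBA, hBi, hBc⟩ : ∃ B ⊆ A, B.Infinite ∧ B.Countable :=
      ⟨range fun n => (hA.natEmbedding A n).1, by
        rintro _ ⟨n, rfl⟩
        exact (hA.natEmbedding A n).2,
        infinite_range_of_injective (Subtype.val_injective.comp (hA.natEmbedding A).injective),
        countable_range _⟩
    have h1 : ∀ S ∈ M, (B ∩ S).Finite := fun S hS =>
      (h S hS).subset (inter_subset_inter_left _ hBA)
    have h2 : insert B M ∈ P := by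
      refine ⟨?_, hM.prop.2.insert fun S hS _ => ⟨h1 S hS, inter_comm B S ▸ h1 S hS⟩⟩
      rintro S (rfl | hS)
      · exact ⟨hBc, hBi⟩
      · exact hM.prop.1 S hS
    have h3 := h1 B (hM.le_of_ge h2 (subset_insert _ _) (mem_insert _ _))
    rw [inter_self] at h3
    exact hBi h3
  have hen : ∀ S : Set C, S.Countable → S.Infinite →
      ∃ f : ℕ → C, Function.Injective f ∧ range f = S := by
    intro S h1 h2
    obtain ⟨d⟩ := (Set.countable_infinite_iff_nonempty_denumerable (s := S)).1 ⟨h1, h2⟩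
    refine ⟨fun n => ((Denumerable.eqv S).symm n).1,
      Subtype.val_injective.comp (Denumerable.eqv S).symm.injective, ?_⟩
    rw [show (fun n => ((Denumerable.eqv S).symm n).1) = Subtype.val ∘ (Denumerable.eqv S).symm
      from rfl, range_comp, (Denumerable.eqv S).symm.surjective.range_eq, image_univ,
      Subtype.range_coe]
  have hcard : #C = #M := by
    rw [mk_C]
    apply le_antisymm
    · have hfin : ((⋃₀ M)ᶜ).Finite := by
        by_contra h
        obtain ⟨S, hS, h2⟩ := hmax _ h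
        obtain ⟨z, hz1, hz2⟩ := h2.nonempty
        exact hz1 ⟨S, hS, hz2⟩
      by_contra hlt
      have h1 : #(⋃₀ M : Set C) < continuum := by
        refine (mk_sUnion_le M).trans_lt (mul_lt_of_lt aleph0_le_continuum (not_le.1 hlt) ?_)
        exact (ciSup_le' fun S : M => le_aleph0_iff_set_countable.2 (hM.prop.1 S.1 S.2).1).trans_lt
          aleph0_lt_continuum
      have h2 := add_lt_of_lt aleph0_le_continuum h1 (hfin.lt_aleph0.trans aleph0_lt_continuum)
      rw [mk_sum_compl, mk_C] at h2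
      exact lt_irrefl _ h2
    · choose f hf1 hf2 using fun S : M => hen S.1 (hM.prop.1 S.1 S.2).1 (hM.prop.1 S.1 S.2).2
      have : Function.Injective f := fun S T e => Subtype.ext (by rw [← hf2, ← hf2, e])
      simpa using mk_le_of_injective this
  obtain ⟨e⟩ := Cardinal.eq.1 hcard
  choose σ h1 h2 using fun y : C => hen ((e y).1 \ {y})
    ((hM.prop.1 _ (e y).2).1.mono sdiff_subset)
    ((hM.prop.1 _ (e y).2).2.sdiff (finite_singleton y))
  refine ⟨⟨σ, h1, fun y k => ?_, fun y z hne => ?_, fun A hA => ?_⟩⟩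
  · have : σ y k ∈ (e y).1 \ {y} := h2 y ▸ mem_range_self k
    exact this.2
  · rw [h2, h2]
    exact (hM.prop.2 (e y).2 (e z).2 fun h => hne (e.injective (Subtype.ext h))).subset
      (inter_subset_inter sdiff_subset sdiff_subset)
  · obtain ⟨S, hS, h⟩ := hmax A hA
    refine ⟨e.symm ⟨S, hS⟩, ?_⟩
    rw [h2, e.apply_symm_apply, ← inter_sdiff_assoc]
    exact h.sdiff (finite_singleton _)

/-- the underlying set -/
def MSp (_ : Mad) : Type := C

variable {D : Mad}

def MV (D : Mad) (y : MSp D) (n : ℕ) : Set (MSp D) := insert y (D.σ y '' Ici n)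

theorem MV_anti (y : MSp D) {i j : ℕ} (h : i ≤ j) : MV D y j ⊆ MV D y i :=
  insert_subset_insert (image_mono (Ici_subset_Ici.2 h))

instance : TopologicalSpace (MSp D) where
  IsOpen O := ∀ x ∈ O, ∃ n, MV D x n ⊆ O
  isOpen_univ := fun _ _ => ⟨0, subset_univ _⟩
  isOpen_inter := by
    intro s t hs ht x hx
    obtain ⟨i, hi⟩ := hs x hx.1
    obtain ⟨j, hj⟩ := ht x hx.2
    exact ⟨max i j, subset_inter ((MV_anti x (le_max_left _ _)).trans hi)
      ((MV_anti x (le_max_right _ _)).trans hj)⟩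
  isOpen_sUnion := by
    intro S hS x ⟨t, ht, hx⟩
    obtain ⟨i, hi⟩ := hS t ht x hx
    exact ⟨i, hi.trans (subset_sUnion_of_mem ht)⟩

theorem isOpen_iff' {O : Set (MSp D)} : IsOpen O ↔ ∀ x ∈ O, ∃ n, MV D x n ⊆ O := Iff.rfl

theorem avoid (y : C) {F : Set C} (h : (range (D.σ y) ∩ F).Finite) :
    ∃ n, ∀ k ≥ n, D.σ y k ∉ F := by
  have h1 : {k | D.σ y k ∈ F}.Finite :=
    (h.preimage (D.inj y).injOn).subset fun k hk => ⟨mem_range_self k, hk⟩
  obtain ⟨n, hn⟩ := h1.bddAbove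
  exact ⟨n + 1, fun k hk h => by have := hn h; omega⟩

/-- descendants along tails -/
inductive Desc (D : Mad) (t : C → ℕ) (r : C) : C → Prop
  | refl : Desc D t r r
  | step {y : C} {k : ℕ} : Desc D t r y → t y ≤ k → Desc D t r (D.σ y k)

instance : T2Space (MSp D) := by
  classical
  refine ⟨fun a b hab => ?_⟩
  let f : C → List ℕ → C := fun r l => l.foldr (fun k y => D.σ y k) r
  let Z : Set C := range (f a) ∪ range (f b)
  have hZ : Z.Countable := (countable_range _).union (countable_range _)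
  have hZσ : ∀ y ∈ Z, ∀ k, D.σ y k ∈ Z := by
    rintro _ (⟨l, rfl⟩ | ⟨l, rfl⟩) k
    · exact Or.inl ⟨k :: l, rfl⟩
    · exact Or.inr ⟨k :: l, rfl⟩
  obtain ⟨e, he⟩ := Set.countable_iff_exists_injOn.1 hZ
  have hfin : ∀ m, {z | z ∈ Z ∧ e z < m}.Finite := by
    intro m
    refine Set.Finite.of_finite_image (f := e) ((finite_Iio m).subset ?_)
      (he.mono fun z hz => hz.1)
    rintro _ ⟨z, hz, rfl⟩
    exact hz.2
  have ht : ∀ y : C, ∃ n, ∀ k ≥ n, D.σ y k ∉
      ({a, b} : Set C) ∪ ⋃ z ∈ {z | z ∈ Z ∧ e z < e y}, range (D.σ z) := by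
    intro y
    apply avoid
    rw [inter_union_distrib_left, inter_iUnion₂]
    exact ((toFinite _).subset inter_subset_right).union ((hfin _).biUnion fun z hz =>
      D.ad y z fun h => lt_irrefl _ (h ▸ hz.2))
  choose t ht using ht
  have hD : ∀ r ∈ Z, ∀ w, Desc D t r w → w ∈ Z := by
    intro r hr w h
    induction h with
    | refl => exact hr
    | step _ _ ih => exact hZσ _ ih _
  have hopen : ∀ r, IsOpen (X := MSp D) {w | Desc D t r w} := by
    intro r y hy
    refine ⟨t y, ?_⟩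
    rintro _ (rfl | ⟨k, hk, rfl⟩)
    · exact hy
    · exact Desc.step hy hk
  have hcase : ∀ r w, Desc D t r w → w = r ∨ ∃ y k, Desc D t r y ∧ t y ≤ k ∧ D.σ y k = w := by
    intro r w h
    cases h with
    | refl => exact Or.inl rfl
    | step h1 h2 => exact Or.inr ⟨_, _, h1, h2, rfl⟩
  refine ⟨_, _, hopen a, hopen b, Desc.refl, Desc.refl, Set.disjoint_left.2 fun w h1 h2 => ?_⟩
  induction h1 with
  | refl =>
    rcases hcase _ _ h2 with h | ⟨y, k, -, hk, h⟩
    · exact hab h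
    · exact ht y k hk (Or.inl (Or.inl h))
  | @step y k hy hk ih =>
    rcases hcase _ _ h2 with h | ⟨y', k', hy', hk', h⟩
    · exact ht y k hk (Or.inl (Or.inr h))
    · have hyZ := hD a (Or.inl ⟨[], rfl⟩) y hy
      have hyZ' := hD b (Or.inr ⟨[], rfl⟩) y' hy'
      rcases lt_trichotomy (e y) (e y') with h3 | h3 | h3
      · exact ht y' k' hk' (Or.inr (mem_biUnion (x := y) ⟨hyZ, h3⟩ ⟨k, h.symm⟩))
      · exact ih (he hyZ hyZ' h3 ▸ hy')
      · exact ht y k hk (Or.inr (mem_biUnion (x := y') ⟨hyZ', h3⟩ ⟨k', h⟩))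

instance : SeqCompactSpace (MSp D) := by
  refine ⟨fun u _ => ?_⟩
  have h : ∃ y, ∀ n, ∃ᶠ k in atTop, u k ∈ MV D y n := by
    by_cases hu : (range u).Finite
    · have h1 : ∃ y, ∃ᶠ k in atTop, u k = y := by
        by_contra h
        have h2 : ∀ᶠ k in atTop, ∀ y ∈ range u, u k ≠ y :=
          (eventually_all_finite hu).2 fun y _ => not_frequently.1 fun h' => h ⟨y, h'⟩
        obtain ⟨k, hk⟩ := h2.exists
        exact hk _ (mem_range_self k) rfl
      obtain ⟨y, hy⟩ := h1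
      exact ⟨y, fun n => hy.mono fun k hk => Or.inl hk⟩
    · obtain ⟨y, hy⟩ := D.max _ hu
      refine ⟨y, fun n => Nat.frequently_atTop_iff_infinite.2 fun hf => hy ?_⟩
      refine ((hf.image u).union ((finite_Iio n).image (D.σ y))).subset ?_
      rintro _ ⟨⟨k, rfl⟩, j, hj⟩
      rcases lt_or_ge j n with h | h
      · exact Or.inr ⟨j, h, hj⟩
      · exact Or.inl ⟨k, Or.inr ⟨j, h, hj⟩, rfl⟩
  obtain ⟨y, hy⟩ := h
  obtain ⟨φ, hφ, h⟩ := extraction_forall_of_frequently hy
  refine ⟨y, mem_univ _, φ, hφ, tendsto_nhds.2 fun O hO hyO => ?_⟩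
  obtain ⟨n, hn⟩ := isOpen_iff'.1 hO y hyO
  filter_upwards [eventually_ge_atTop n] with k hk using hn (MV_anti y hk (h k))

theorem not_countablyGenerated (y : MSp D) : ¬ (𝓝 y).IsCountablyGenerated := by
  intro hc
  have hcl : y ∈ closure (MV D y 0)ᶜ := by
    rw [mem_closure_iff]
    intro O hO hy
    obtain ⟨n, hn⟩ := isOpen_iff'.1 hO y hy
    obtain ⟨m, hm⟩ := isOpen_iff'.1 hO (D.σ y n) (hn (Or.inr ⟨n, mem_Ici.2 le_rfl, rfl⟩))
    obtain ⟨j, hj⟩ := avoid (D := D) (D.σ y n) (F := insert y (range (D.σ y))) 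
      (((D.ad _ _ (D.ne y n)).insert y).subset fun u hu => hu.2.imp id fun h => ⟨hu.1, h⟩)
    refine ⟨D.σ (D.σ y n) (max m j), hm (Or.inr ⟨_, mem_Ici.2 (le_max_left _ _), rfl⟩), fun h => ?_⟩
    exact hj _ (le_max_right m j) (insert_subset_insert (image_subset_range _ _) h)
  have hne := mem_closure_iff_nhdsWithin_neBot.1 hcl
  obtain ⟨w, hw⟩ := exists_seq_tendsto (𝓝[(MV D y 0)ᶜ] y)
  obtain ⟨hw1, hw2⟩ := tendsto_nhdsWithin_iff.1 hw
  have hO : IsOpen (range w ∩ (MV D y 0)ᶜ)ᶜ := by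
    intro z hz
    by_cases hzy : z = y
    · exact ⟨0, fun u hu h => h.2 (hzy ▸ hu)⟩
    obtain ⟨U, U', hU, hU', hzU, hyU, hd⟩ := t2_separation hzy
    obtain ⟨n, hn⟩ := isOpen_iff'.1 hU z hzU
    obtain ⟨N, hN⟩ := eventually_atTop.1 (hw1 (hU'.mem_nhds hyU))
    obtain ⟨j, hj⟩ := avoid (D := D) z (F := w '' Iio N)
      (((finite_Iio N).image w).subset inter_subset_right)
    refine ⟨max n j, ?_⟩
    rintro _ (rfl | ⟨k, hk, rfl⟩)
    · exact hz
    · rintro ⟨⟨i, hi⟩, -⟩
      rcases lt_or_ge i N with h | h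
      · exact hj k ((le_max_right _ _).trans hk) ⟨i, h, hi⟩
      · exact Set.disjoint_left.1 hd (hn (Or.inr ⟨k, mem_Ici.2 ((le_max_left _ _).trans hk), rfl⟩))
          (hi ▸ hN i h)
  obtain ⟨i, hi1, hi2⟩ := (hw2.and (hw1 (hO.mem_nhds fun h => h.2 (Or.inl rfl)))).exists
  exact hi2 ⟨mem_range_self i, hi1⟩

end Pool.Agent.WL13
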