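import Pool.Agent.WL13.Basic

/-! The space: the refined Cantor set plus one point. -/

namespace Pool.Agent.WL13

open Set PiNat Filter Topology

/-- the underlying set -/
def Sp (_ : Data) : Type := Option C

variable {D : Data}

def pt (D : Data) (y : C) : Sp D := some y

def top (D : Data) : Sp D := none

theorem pt_inj : Function.Injective (pt D) := Option.some_injective _

theorem pt_ne (y : C) : pt D y ≠ top D := Option.some_ne_none y

theorem Sp.cases (x : Sp D) : x = top D ∨ ∃ y, x = pt D y := by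
  rcases x with _ | y
  · exact Or.inl rfl
  · exact Or.inr ⟨y, rfl⟩

/-- the weak base -/
def V (D : Data) : Sp D → ℕ → Set (Sp D)
  | none, n => {w | ∀ z, w = pt D z → n ≤ D.rank z}
  | some y, j => pt D '' D.B y j

theorem V_top (n : ℕ) : V D (top D) n = {w | ∀ z, w = pt D z → n ≤ D.rank z} := rfl

theorem V_pt (y : C) (j : ℕ) : V D (pt D y) j = pt D '' D.B y j := rfl

theorem self_mem_V (x : Sp D) (n : ℕ) : x ∈ V D x n := by
  rcases x.cases with rfl | ⟨y, rfl⟩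
  · exact fun z h => absurd h.symm (pt_ne z)
  · exact ⟨y, self_mem_B _ _, rfl⟩

theorem V_anti (x : Sp D) {i j : ℕ} (h : i ≤ j) : V D x j ⊆ V D x i := by
  rcases x.cases with rfl | ⟨y, rfl⟩
  · exact fun w hw z e => h.trans (hw z e)
  · exact image_mono (B_anti y h)

instance : TopologicalSpace (Sp D) where
  IsOpen O := ∀ x ∈ O, ∃ n, V D x n ⊆ O
  isOpen_univ := fun _ _ => ⟨0, subset_univ _⟩
  isOpen_inter := by
    intro s t hs ht x hx
    obtain ⟨i, hi⟩ := hs x hx.1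
    obtain ⟨j, hj⟩ := ht x hx.2
    exact ⟨max i j, subset_inter ((V_anti x (le_max_left _ _)).trans hi)
      ((V_anti x (le_max_right _ _)).trans hj)⟩
  isOpen_sUnion := by
    intro S hS x ⟨t, ht, hx⟩
    obtain ⟨i, hi⟩ := hS t ht x hx
    exact ⟨i, hi.trans (subset_sUnion_of_mem ht)⟩

theorem isOpen_iff {O : Set (Sp D)} : IsOpen O ↔ ∀ x ∈ O, ∃ n, V D x n ⊆ O := Iff.rfl

theorem isClopen_image {N : Set C} {n : ℕ} (hr : ∀ z ∈ N, D.rank z ≤ n)
    (ho : ∀ z ∈ N, ∃ i, D.B z i ⊆ N) (hc : ∀ z ∉ N, ∃ i, Disjoint (D.B z i) N) :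
    IsClopen (pt D '' N) := by
  constructor
  · rw [← isOpen_compl_iff, isOpen_iff]
    intro x hx
    rcases x.cases with rfl | ⟨y, rfl⟩
    · refine ⟨n + 1, ?_⟩
      rintro w hw ⟨z, hz, rfl⟩
      have h1 := hw z rfl
      have h2 := hr z hz
      omega
    · obtain ⟨i, hi⟩ := hc y (fun h => hx ⟨y, h, rfl⟩)
      refine ⟨i, ?_⟩
      rintro _ ⟨z, hz, rfl⟩ ⟨u, hu, e⟩
      exact Set.disjoint_left.1 hi hz (pt_inj e ▸ hu)
  · rw [isOpen_iff]
    rintro _ ⟨y, hy, rfl⟩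
    obtain ⟨i, hi⟩ := ho y hy
    exact ⟨i, image_mono hi⟩

theorem isClopen_V (y : C) (j : ℕ) : IsClopen (V D (pt D y) j) :=
  isClopen_image (fun _ hz => In_rank hz.1) (fun _ hz => B_open hz)
    (fun z hz => (B_closed y j z hz).exists)

theorem nhds_basis (y : C) : (𝓝 (pt D y)).HasBasis (fun _ : ℕ => True) (V D (pt D y)) := by
  refine ⟨fun U => ⟨fun h => ?_, fun ⟨j, _, hj⟩ => ?_⟩⟩
  · obtain ⟨O, hOU, hO, hy⟩ := mem_nhds_iff.1 h
    obtain ⟨j, hj⟩ := isOpen_iff.1 hO _ hy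
    exact ⟨j, trivial, hj.trans hOU⟩
  · exact mem_of_superset ((isClopen_V y j).2.mem_nhds (self_mem_V _ _)) hj

theorem isCompact_V (y : C) : ∀ j, IsCompact (V D (pt D y) j) := by
  induction' hn : D.rank y using Nat.strong_induction_on with n ih generalizing y
  intro j
  rw [isCompact_iff_ultrafilter_le_nhds]
  intro f hf
  rw [le_principal_iff] at hf
  by_cases h : ∃ k, D.rank y ≠ 0 ∧ V D (pt D (D.σ y k)) (D.m y k) ∈ f
  · obtain ⟨k, h0, hk⟩ := h
    have hc := (ih _ (hn ▸ D.lower y k h0) (D.σ y k) rfl (D.m y k)).inter_right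
      (isClopen_V y j).1
    obtain ⟨x, hx, hfx⟩ := isCompact_iff_ultrafilter_le_nhds.1 hc f
      (le_principal_iff.2 (inter_mem hk hf))
    exact ⟨x, hx.2, hfx⟩
  · refine ⟨pt D y, self_mem_V _ _, (nhds_basis y).ge_iff.2 fun i _ => ?_⟩
    by_contra hi
    have h1 : ⋃ k ∈ {k | k < i ∧ D.rank y ≠ 0}, V D (pt D (D.σ y k)) (D.m y k) ∈ f := by
      refine mem_of_superset (inter_mem hf (Ultrafilter.compl_mem_iff_notMem.2 hi)) ?_
      rintro _ ⟨⟨z, hz, rfl⟩, hz2⟩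
      rcases In_cases hz.1 with rfl | ⟨h0, k, hk⟩
      · exact absurd (self_mem_V _ _) hz2
      · refine mem_biUnion (x := k) ⟨?_, h0⟩ ⟨z, hk, rfl⟩
        by_contra hki
        exact hz2 ⟨z, B_anti y (not_lt.1 hki) (piece_sub h0 k hk), rfl⟩
    obtain ⟨k, hk, hk2⟩ := (Ultrafilter.finite_biUnion_mem_iff
      ((finite_lt_nat i).subset fun k hk => hk.1)).1 h1
    exact h ⟨k, hk.2, hk2⟩

/-- the part of the Cantor set outside an open neighbourhood of the top point -/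
theorem outside {O : Set (Sp D)} (hO : IsOpen O) (hx : top D ∈ O) :
    ∃ n, (∀ z ∈ {z | pt D z ∉ O}, D.rank z ≤ n) ∧
      ∀ z ∉ {z | pt D z ∉ O}, ∃ i, Disjoint (D.B z i) {z | pt D z ∉ O} := by
  obtain ⟨n, hn⟩ := isOpen_iff.1 hO _ hx
  refine ⟨n, fun z hz => ?_, fun z hz => ?_⟩
  · by_contra h
    exact hz (hn fun u e => pt_inj e ▸ (not_le.1 h).le)
  · obtain ⟨i, hi⟩ := isOpen_iff.1 hO _ (not_not.1 hz)
    exact ⟨i, Set.disjoint_left.2 fun u hu hu2 => hu2 (hi ⟨u, hu, rfl⟩)⟩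

theorem compl_countable {U : Set (Sp D)} (hU : U ∈ 𝓝 (top D)) : Uᶜ.Countable := by
  obtain ⟨O, hOU, hO, hx⟩ := mem_nhds_iff.1 hU
  obtain ⟨n, h1, h2⟩ := outside hO hx
  refine (((closure_countable h1 h2).mono subset_closure).image (pt D)).mono fun w hw => ?_
  rcases w.cases with rfl | ⟨z, rfl⟩
  · exact absurd (hOU hx) hw
  · exact ⟨z, fun h => hw (hOU h), rfl⟩

theorem exists_clopen_subset {O : Set (Sp D)} (hO : IsOpen O) {x : Sp D} (hx : x ∈ O) :
    ∃ W, IsClopen W ∧ x ∈ W ∧ W ⊆ O := by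
  rcases x.cases with rfl | ⟨y, rfl⟩
  · obtain ⟨n, h1, h2⟩ := outside hO hx
    obtain ⟨N, hN, h3, h4, h5⟩ := exists_clopen h1 h2
    refine ⟨(pt D '' N)ᶜ, (isClopen_image h3 h4 h5).compl, ?_, fun w hw => ?_⟩
    · rintro ⟨z, -, e⟩
      exact pt_ne z e
    · rcases w.cases with rfl | ⟨z, rfl⟩
      · exact hx
      · by_contra h
        exact hw ⟨z, hN h, rfl⟩
  · obtain ⟨j, hj⟩ := isOpen_iff.1 hO _ hx
    exact ⟨_, isClopen_V y j, self_mem_V _ _, hj⟩

theorem clopen_basis : TopologicalSpace.IsTopologicalBasis {s : Set (Sp D) | IsClopen s} :=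
  TopologicalSpace.isTopologicalBasis_of_isOpen_of_nhds (fun _ h => h.2)
    (fun _ _ hx hO => by
      obtain ⟨W, h1, h2, h3⟩ := exists_clopen_subset hO hx
      exact ⟨W, h1, h2, h3⟩)

instance : RegularSpace (Sp D) :=
  .of_exists_mem_nhds_isClosed_subset fun x s hs => by
    obtain ⟨O, hOU, hO, hx⟩ := mem_nhds_iff.1 hs
    obtain ⟨W, h1, h2, h3⟩ := exists_clopen_subset hO hx
    exact ⟨W, h1.2.mem_nhds h2, h1.1, h3.trans hOU⟩

theorem top_not_mem (y : C) (j : ℕ) : top D ∉ V D (pt D y) j := by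
  rintro ⟨z, -, e⟩
  exact pt_ne z e

instance : T0Space (Sp D) := by
  refine (t0Space_iff_exists_isOpen_xor_mem _).2 fun x y hxy => ?_
  rcases x.cases with rfl | ⟨a, rfl⟩ <;> rcases y.cases with rfl | ⟨b, rfl⟩
  · exact absurd rfl hxy
  · exact ⟨_, (isClopen_V b 0).2, Or.inr ⟨self_mem_V _ _, top_not_mem b 0⟩⟩
  · exact ⟨_, (isClopen_V a 0).2, Or.inl ⟨self_mem_V _ _, top_not_mem a 0⟩⟩
  · have hab : a ≠ b := fun e => hxy (e ▸ rfl)
    obtain ⟨e, he⟩ := Function.ne_iff.1 hab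
    refine ⟨_, (isClopen_V a (e + 1)).2, Or.inl ⟨self_mem_V _ _, ?_⟩⟩
    rintro ⟨z, hz, h⟩
    exact he ((pt_inj h ▸ hz).2 e (Nat.lt_succ_self e)).symm

instance : T3Space (Sp D) where

instance : LindelofSpace (Sp D) := by
  refine ⟨isLindelof_of_countable_subcover fun U hU hc => ?_⟩
  choose g hg using fun x => mem_iUnion.1 (hc (mem_univ x))
  have h := compl_countable ((hU _).mem_nhds (hg (top D)))
  refine ⟨insert (g (top D)) (g '' (U (g (top D)))ᶜ), (h.image g).insert _, fun x _ => ?_⟩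
  by_cases hx : x ∈ U (g (top D))
  · exact mem_biUnion (mem_insert _ _) hx
  · exact mem_biUnion (mem_insert_of_mem _ ⟨x, hx, rfl⟩) (hg x)

theorem not_isGδ : ¬ IsGδ ({top D} : Set (Sp D)) := by
  rintro ⟨T, hT, hTc, e⟩
  have h1 : (({top D} : Set (Sp D))ᶜ).Countable := by
    rw [e, compl_sInter, sUnion_image]
    refine hTc.biUnion fun t ht => compl_countable ((hT t ht).mem_nhds ?_)
    exact (e ▸ mem_singleton (top D) : top D ∈ ⋂₀ T) t ht
  have h2 : (univ : Set C).Countable :=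
    (h1.preimage pt_inj).mono fun z _ => pt_ne z
  have h3 := Cardinal.le_aleph0_iff_set_countable.2 h2
  rw [Cardinal.mk_univ, mk_C] at h3
  exact absurd h3 (not_le.2 Cardinal.aleph0_lt_continuum)

instance : TopologicalSpace.SeparableSpace (Sp D) := by
  refine ⟨pt D '' {r | D.rank r = 0}, D.count.image _, dense_iff_inter_open.2 fun O hO hne => ?_⟩
  have h : ∃ y, pt D y ∈ O := by
    obtain ⟨x, hx⟩ := hne
    rcases x.cases with rfl | ⟨y, rfl⟩
    · by_contra h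
      refine not_isGδ (D := D) (IsOpen.isGδ ?_)
      have : O = {top D} := by
        refine Subset.antisymm (fun w hw => ?_) (singleton_subset_iff.2 hx)
        rcases w.cases with rfl | ⟨z, rfl⟩
        · rfl
        · exact absurd ⟨z, hw⟩ h
      exact this ▸ hO
    · exact ⟨y, hx⟩
  obtain ⟨y, hy⟩ := h
  obtain ⟨j, hj⟩ := isOpen_iff.1 hO _ hy
  obtain ⟨z, hz, h0⟩ := B_rank_zero (D := D) y j
  exact ⟨pt D z, hj ⟨z, hz, rfl⟩, z, h0, rfl⟩

end Pool.Agent.WL13
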